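import Pool.Agent.Helper28.PL.Goals
import Pool.Agent.Helper75.VF.H1

/-!
Packet P4 of the planarity module: a simple triangulated plane map gives a simplicial
triangulation of the sphere.
-/

set_option autoImplicit false

namespace Helper69.PL

open Finset Equiv Helper28.VF Helper28.PL
open scoped Classical

section
variable {D V E F : Type} [Fintype D] [Fintype V] [Fintype E] [Fintype F]

theorem vt_σ (M : PM D V E F) (d : D) : M.vt (M.σ d) = M.vt d := by
  rw [M.vt_iff]
  exact (Equiv.Perm.sameCycle_apply_left).2 (Equiv.Perm.SameCycle.refl _ _)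

theorem vt_φ (M : PM D V E F) (d : D) : M.vt (φ M d) = M.vt (M.α d) := vt_σ M (M.α d)

theorem fc_φ (M : PM D V E F) (d : D) : M.fc (φ M d) = M.fc d := by
  rw [M.fc_iff]
  exact (Equiv.Perm.sameCycle_apply_left).2 (Equiv.Perm.SameCycle.refl _ _)

theorem fc_σ (M : PM D V E F) (d : D) : M.fc (M.σ d) = M.fc (M.α d) := by
  have h := fc_φ M (M.α d)
  have h2 : φ M (M.α d) = M.σ d := by
    show M.σ (M.α (M.α d)) = M.σ d
    rw [M.α_inv]
  rw [h2] at h
  exact h

theorem fc_cases (M : PM D V E F) (hT : Triang M) {d e : D} (h : M.fc d = M.fc e) :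
    e = d ∨ e = φ M d ∨ e = φ M (φ M d) := by
  rw [M.fc_iff] at h
  obtain ⟨i, hi⟩ := h
  change ((φ M) ^ i) d = e at hi
  have h3 : (φ M) ^ (3 : ℤ) = 1 := by
    ext x
    have := hT x
    simpa [zpow_ofNat, pow_succ] using this
  have hmod : (φ M) ^ i = (φ M) ^ (i % 3) := by
    conv_lhs => rw [← Int.mul_ediv_add_emod i 3]
    rw [zpow_add, zpow_mul, h3, one_zpow, one_mul]
  rw [hmod] at hi
  have h0 : i % 3 = 0 ∨ i % 3 = 1 ∨ i % 3 = 2 := by omega
  rcases h0 with h0 | h0 | h0
  · left
    rw [h0] at hi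
    simpa using hi.symm
  · right; left
    rw [h0] at hi
    simpa using hi.symm
  · right; right
    rw [h0] at hi
    rw [← hi]
    show ((φ M) ^ (2 : ℤ)) d = φ M (φ M d)
    rw [zpow_ofNat, pow_two]
    rfl

variable {M : PM D V E F}

theorem ne01 (hS : Simple M) (d : D) : M.vt (φ M d) ≠ M.vt d := by
  rw [vt_φ]
  exact hS.noloop d

theorem ne12 (hS : Simple M) (d : D) : M.vt (φ M (φ M d)) ≠ M.vt (φ M d) := ne01 hS _

theorem ne02 (hS : Simple M) (hT : Triang M) (d : D) : M.vt (φ M (φ M d)) ≠ M.vt d := by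
  have h := ne01 hS (φ M (φ M d))
  rw [hT d] at h
  exact h.symm

theorem fc_ne (hS : Simple M) (hT : Triang M) (d : D) : M.fc (M.α d) ≠ M.fc d := by
  intro h
  rcases fc_cases M hT h.symm with h | h | h
  · exact M.α_ne d h
  · have h1 : M.vt (φ M (M.α d)) = M.vt d := by rw [vt_φ, M.α_inv]
    rw [h] at h1
    exact ne02 hS hT d h1
  · have h1 : M.vt (φ M (φ M d)) = M.vt (φ M d) := by rw [← h, vt_φ]
    exact ne12 hS d h1

theorem pair_cases (hT : Triang M) {d1 d2 : D} (h : M.fc d1 = M.fc d2)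
    (hne : M.vt d1 ≠ M.vt d2) :
    (M.vt (M.α d1) = M.vt d2) ∨ (M.vt (M.α d2) = M.vt d1) := by
  rcases fc_cases M hT h with h | h | h
  · exact absurd (by rw [h]) hne
  · left
    rw [h, vt_φ]
  · right
    rw [← vt_φ, h, hT]

/-- vertices of a face -/
noncomputable def tri (M : PM D V E F) (f : F) : Finset V :=
  (univ.filter fun d => M.fc d = f).image M.vt

theorem mem_tri {v : V} {f : F} : v ∈ tri M f ↔ ∃ d, M.fc d = f ∧ M.vt d = v := by
  simp [tri]

theorem key (hS : Simple M) (hT : Triang M) (d : D) (f : F) :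
    (M.vt d ∈ tri M f ∧ M.vt (M.α d) ∈ tri M f) ↔ f = M.fc d ∨ f = M.fc (M.α d) := by
  constructor
  · rintro ⟨h1, h2⟩
    obtain ⟨d1, hf1, hv1⟩ := mem_tri.1 h1
    obtain ⟨d2, hf2, hv2⟩ := mem_tri.1 h2
    have hne : M.vt d1 ≠ M.vt d2 := by
      rw [hv1, hv2]
      exact (hS.noloop d).symm
    rcases pair_cases hT (hf1.trans hf2.symm) hne with h | h
    · left
      have : d1 = d := hS.simple d1 d hv1 (h.trans hv2)
      rw [← hf1, this]
    · right
      have : d2 = M.α d := hS.simple d2 (M.α d) hv2 (by rw [h, hv1, M.α_inv])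
      rw [← hf2, this]
  · rintro (h | h)
    · exact ⟨mem_tri.2 ⟨d, h.symm, rfl⟩, mem_tri.2 ⟨φ M d, by rw [fc_φ, h], vt_φ M d⟩⟩
    · exact ⟨mem_tri.2 ⟨φ M (M.α d), by rw [fc_φ, h], by rw [vt_φ, M.α_inv]⟩,
        mem_tri.2 ⟨M.α d, h.symm, rfl⟩⟩

theorem tri_eq (hT : Triang M) (d : D) :
    tri M (M.fc d) = {M.vt d, M.vt (φ M d), M.vt (φ M (φ M d))} := by
  ext v
  rw [mem_tri]
  simp only [mem_insert, mem_singleton]
  constructor
  · rintro ⟨e, he, rfl⟩
    rcases fc_cases M hT he.symm with h | h | h <;> simp [h]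
  · rintro (rfl | rfl | rfl)
    · exact ⟨d, rfl, rfl⟩
    · exact ⟨φ M d, fc_φ M d, rfl⟩
    · exact ⟨φ M (φ M d), by rw [fc_φ, fc_φ], rfl⟩

theorem adj_symm {u v : V} (h : Adj M u v) : Adj M v u := by
  obtain ⟨d, h1, h2⟩ := h
  exact ⟨M.α d, h2, by rw [M.α_inv, h1]⟩

/-- the triangulation of a map -/
noncomputable def mkTri (hS : Simple M) (hT : Triang M) : Pool.Agent.Helper34.FF.Tri V F where
  G := { Adj := Adj M
         symm := ⟨fun _ _ h => adj_symm h⟩
         loopless := ⟨fun v h => by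
          obtain ⟨d, h1, h2⟩ := h
          exact hS.noloop d (h2.trans h1.symm)⟩ }
  tri := tri M
  tri_card := fun f => by
    obtain ⟨d, rfl⟩ := M.fc_surj f
    rw [tri_eq hT d, card_eq_three]
    exact ⟨_, _, _, (ne01 hS d).symm, (ne02 hS hT d).symm, (ne12 hS d).symm, rfl⟩
  tri_adj := fun f a ha b hb hab => by
    obtain ⟨d1, hf1, rfl⟩ := mem_tri.1 ha
    obtain ⟨d2, hf2, rfl⟩ := mem_tri.1 hb
    rcases pair_cases hT (hf1.trans hf2.symm) hab with h | h
    · exact ⟨d1, rfl, h⟩
    · exact adj_symm ⟨d2, rfl, h⟩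
  two := fun a b hab => by
    obtain ⟨d, rfl, rfl⟩ := hab
    have : (univ.filter fun f => M.vt d ∈ tri M f ∧ M.vt (M.α d) ∈ tri M f) =
        {M.fc d, M.fc (M.α d)} := by
      ext f
      simp only [mem_filter, mem_univ, true_and, mem_insert, mem_singleton]
      exact key hS hT d f
    rw [this, card_pair (fc_ne hS hT d).symm]

theorem mem_edgeSet (hS : Simple M) (hT : Triang M) (e : Sym2 V) :
    e ∈ (mkTri hS hT).G.edgeSet ↔ ∃ d, e = s(M.vt d, M.vt (M.α d)) := by
  induction e with
  | _ a b =>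
    rw [SimpleGraph.mem_edgeSet]
    constructor
    · rintro ⟨d, rfl, rfl⟩
      exact ⟨d, rfl⟩
    · rintro ⟨d, h⟩
      rcases Sym2.eq_iff.1 h with ⟨rfl, rfl⟩ | ⟨rfl, rfl⟩
      · exact ⟨d, rfl, rfl⟩
      · exact adj_symm ⟨d, rfl, rfl⟩

theorem on_iff (hS : Simple M) (hT : Triang M) (d : D) (f : F) :
    (mkTri hS hT).on s(M.vt d, M.vt (M.α d)) f ↔ f = M.fc d ∨ f = M.fc (M.α d) := by
  rw [← key hS hT d f]
  unfold Pool.Agent.Helper34.FF.Tri.on
  constructor
  · intro h
    exact ⟨h _ (Sym2.mem_mk_left _ _), h _ (Sym2.mem_mk_right _ _)⟩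
  · rintro ⟨h1, h2⟩ v hv
    rcases Sym2.mem_iff.1 hv with rfl | rfl
    · exact h1
    · exact h2

theorem mem_bdry (hS : Simple M) (hT : Triang M) (d : D) (S : Finset F) :
    s(M.vt d, M.vt (M.α d)) ∈ (mkTri hS hT).bdry S ↔ ¬ (M.fc d ∈ S ↔ M.fc (M.α d) ∈ S) := by
  unfold Pool.Agent.Helper34.FF.Tri.bdry
  simp only [mem_filter, mem_univ, true_and]
  have h1 : s(M.vt d, M.vt (M.α d)) ∈ (mkTri hS hT).G.edgeSet :=
    (mem_edgeSet hS hT _).2 ⟨d, rfl⟩
  simp only [h1, true_and, on_iff]
  have hne := fc_ne hS hT d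
  by_cases ha : M.fc d ∈ S <;> by_cases hb : M.fc (M.α d) ∈ S
  · have : (S.filter fun f => f = M.fc d ∨ f = M.fc (M.α d)) = {M.fc d, M.fc (M.α d)} := by
      ext f
      simp only [mem_filter, mem_insert, mem_singleton]
      constructor
      · exact fun h => h.2
      · rintro (rfl | rfl)
        · exact ⟨ha, Or.inl rfl⟩
        · exact ⟨hb, Or.inr rfl⟩
    rw [this, card_pair hne.symm]
    simp [ha, hb]
  · have : (S.filter fun f => f = M.fc d ∨ f = M.fc (M.α d)) = {M.fc d} := by
      ext f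
      simp only [mem_filter, mem_singleton]
      constructor
      · rintro ⟨h, rfl | rfl⟩
        · rfl
        · exact absurd h hb
      · rintro rfl
        exact ⟨ha, Or.inl rfl⟩
    rw [this, card_singleton]
    simp [ha, hb]
  · have : (S.filter fun f => f = M.fc d ∨ f = M.fc (M.α d)) = {M.fc (M.α d)} := by
      ext f
      simp only [mem_filter, mem_singleton]
      constructor
      · rintro ⟨h, rfl | rfl⟩
        · exact absurd h ha
        · rfl
      · rintro rfl
        exact ⟨hb, Or.inr rfl⟩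
    rw [this, card_singleton]
    simp [ha, hb]
  · have : (S.filter fun f => f = M.fc d ∨ f = M.fc (M.α d)) = ∅ := by
      ext f
      simp only [mem_filter, notMem_empty, iff_false, not_and]
      rintro h (rfl | rfl)
      · exact ha h
      · exact hb h
    rw [this, card_empty]
    simp [ha, hb]

theorem nonemptyD (M : PM D V E F) : Nonempty D := by
  by_contra h
  have hD : IsEmpty D := not_nonempty_iff.1 h
  have hV : IsEmpty V := ⟨fun v => by obtain ⟨d, _⟩ := M.vt_surj v; exact hD.elim d⟩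
  have hF : IsEmpty F := ⟨fun v => by obtain ⟨d, _⟩ := M.fc_surj v; exact hD.elim d⟩
  have := M.euler
  rw [Fintype.card_eq_zero, Fintype.card_eq_zero] at this
  omega

theorem card_D3 (hS : Simple M) (hT : Triang M) : Fintype.card D = 3 * Fintype.card F := by
  have h := card_eq_sum_card_fiberwise (s := (univ : Finset D)) (t := (univ : Finset F))
    (f := M.fc) (fun x _ => mem_coe.2 (mem_univ _))
  have h3 : ∀ f : F, (univ.filter fun d => M.fc d = f).card = 3 := by
    intro f
    obtain ⟨d, rfl⟩ := M.fc_surj f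
    have : (univ.filter fun e => M.fc e = M.fc d) = {d, φ M d, φ M (φ M d)} := by
      ext e
      simp only [mem_filter, mem_univ, true_and, mem_insert, mem_singleton]
      constructor
      · intro he
        exact fc_cases M hT he.symm
      · rintro (rfl | rfl | rfl)
        · rfl
        · exact fc_φ M d
        · rw [fc_φ, fc_φ]
    rw [this, card_eq_three]
    refine ⟨_, _, _, ?_, ?_, ?_, rfl⟩
    · intro h
      exact ne01 hS d (by rw [← h])
    · intro h
      exact ne02 hS hT d (by rw [← h])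
    · intro h
      exact ne12 hS d (by rw [← h])
  rw [← card_univ, h]
  simp only [h3]
  simp [mul_comm]

theorem card_D2 (M : PM D V E F) : Fintype.card D = 2 * Fintype.card E := by
  have h := card_eq_sum_card_fiberwise (s := (univ : Finset D)) (t := (univ : Finset E))
    (f := M.ed) (fun x _ => mem_coe.2 (mem_univ _))
  have h3 : ∀ f : E, (univ.filter fun d => M.ed d = f).card = 2 := by
    intro f
    obtain ⟨d, rfl⟩ := M.ed_surj f
    have : (univ.filter fun e => M.ed e = M.ed d) = {d, M.α d} := by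
      ext e
      simp only [mem_filter, mem_univ, true_and, mem_insert, mem_singleton]
      rw [eq_comm, M.ed_iff]
    rw [this, card_pair (M.α_ne d).symm]
  rw [← card_univ, h]
  simp only [h3]
  simp [mul_comm]

theorem edges_le (hS : Simple M) (hT : Triang M) :
    (univ.filter fun e : Sym2 V => e ∈ (mkTri hS hT).G.edgeSet).card ≤ Fintype.card E := by
  have h : (univ.filter fun e : Sym2 V => e ∈ (mkTri hS hT).G.edgeSet) ⊆
      (univ : Finset E).image (fun e => s(M.vt (M.ed_surj e).choose,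
        M.vt (M.α (M.ed_surj e).choose))) := by
    intro e he
    simp only [mem_filter, mem_univ, true_and] at he
    obtain ⟨d, rfl⟩ := (mem_edgeSet hS hT e).1 he
    refine mem_image.2 ⟨M.ed d, mem_univ _, ?_⟩
    have h1 := (M.ed_surj (M.ed d)).choose_spec
    have h2 := (M.ed_iff _ _).1 h1.symm
    rcases h2 with h2 | h2
    · rw [h2]
    · rw [h2, M.α_inv]
      exact Sym2.eq_swap
  exact (card_le_card h).trans card_image_le

theorem sphere (hS : Simple M) (hT : Triang M) : (mkTri hS hT).Sphere where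
  conn := by
    obtain ⟨d0⟩ := nonemptyD M
    have hN : Nonempty V := ⟨M.vt d0⟩
    refine (SimpleGraph.connected_iff_exists_forall_reachable _).2 ⟨M.vt d0, fun v => ?_⟩
    obtain ⟨d, rfl⟩ := M.vt_surj v
    refine M.conn (fun d => (mkTri hS hT).G.Reachable (M.vt d0) (M.vt d))
      ⟨d0, SimpleGraph.Reachable.refl _⟩ ?_ ?_ d
    · intro d hd
      show (mkTri hS hT).G.Reachable (M.vt d0) (M.vt (M.σ d))
      rw [vt_σ]
      exact hd
    · intro d hd
      refine hd.trans (SimpleGraph.Adj.reachable ?_)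
      exact ⟨d, rfl, rfl⟩
  face := fun v => by
    obtain ⟨d, rfl⟩ := M.vt_surj v
    exact ⟨M.fc d, mem_tri.2 ⟨d, rfl, rfl⟩⟩
  span := by
    intro Z hZ hev
    let z : D → ZMod 2 := fun d => if s(M.vt d, M.vt (M.α d)) ∈ Z then 1 else 0
    have hzα : ∀ d, z (M.α d) = z d := by
      intro d
      show (if s(M.vt (M.α d), M.vt (M.α (M.α d))) ∈ Z then (1 : ZMod 2) else 0) =
        if s(M.vt d, M.vt (M.α d)) ∈ Z then 1 else 0
      rw [M.α_inv, Sym2.eq_swap]
    have h2 : ∀ x : ZMod 2, x + x = 0 := by decide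
    have hv : ∀ v, ∑ d ∈ univ.filter (fun d => M.vt d = v), z d = 0 := by
      intro v
      rw [sum_boole, ZMod.natCast_eq_zero_iff_even]
      have := hev v
      convert this using 1
      refine card_nbij (fun d => s(M.vt d, M.vt (M.α d))) ?_ ?_ ?_
      · intro d hd
        simp only [mem_filter, mem_univ, true_and, coe_filter, Set.mem_ofPred_eq] at hd ⊢
        exact ⟨hd.2, by rw [hd.1]; exact Sym2.mem_mk_left _ _⟩
      · intro d hd d' hd' h
        simp only [mem_filter, mem_univ, true_and, coe_filter, Set.mem_ofPred_eq] at hd hd'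
        rcases Sym2.eq_iff.1 h with ⟨h1, h2⟩ | ⟨h1, h2⟩
        · exact hS.simple d d' h1 h2
        · exact (hS.noloop d (by rw [h2, hd'.1, hd.1])).elim
      · intro e he
        simp only [mem_filter, coe_filter, Set.mem_ofPred_eq] at he
        obtain ⟨d, rfl⟩ := (mem_edgeSet hS hT e).1 (hZ e he.1)
        rcases Sym2.mem_iff.1 he.2 with rfl | rfl
        · refine ⟨d, ?_, rfl⟩
          simp only [mem_filter, mem_univ, true_and, coe_filter, Set.mem_ofPred_eq]
          exact he.1
        · refine ⟨M.α d, ?_, ?_⟩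
          · simp only [mem_filter, mem_univ, true_and, coe_filter, Set.mem_ofPred_eq, M.α_inv]
            rw [Sym2.eq_swap]
            exact he.1
          · show s(M.vt (M.α d), M.vt (M.α (M.α d))) = _
            rw [M.α_inv, Sym2.eq_swap]
    obtain ⟨l, hl1, hl2⟩ := Helper75.VF.stmtH1 D V E F M (ZMod 2) z z hv
      (fun d => by rw [hzα]; exact h2 _)
      (fun f => sum_eq_zero fun d _ => by rw [hzα]; exact h2 _)
    have hlφ : ∀ d, l (φ M d) = l d := by
      intro d
      show l (M.σ (M.α d)) = l d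
      rw [hl1, hl2, hzα, add_assoc, h2, add_zero]
    have hlf : ∀ d e, M.fc d = M.fc e → l d = l e := by
      intro d e h
      rcases fc_cases M hT h with h | h | h
      · rw [h]
      · rw [h, hlφ]
      · rw [h, hlφ, hlφ]
    let S : Finset F := univ.filter fun f => ∃ d, M.fc d = f ∧ l d = 1
    have hSm : ∀ d, M.fc d ∈ S ↔ l d = 1 := by
      intro d
      simp only [S, mem_filter, mem_univ, true_and]
      constructor
      · rintro ⟨e, he, h⟩
        rw [hlf d e he.symm, h]
      · intro h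
        exact ⟨d, rfl, h⟩
    have hcalc : ∀ x y : ZMod 2, ¬ (x = 1 ↔ x + y = 1) ↔ y = 1 := by decide
    have hmain : ∀ d, s(M.vt d, M.vt (M.α d)) ∈ (mkTri hS hT).bdry S ↔
        s(M.vt d, M.vt (M.α d)) ∈ Z := by
      intro d
      rw [mem_bdry, hSm, hSm, hl2, hcalc]
      show (if s(M.vt d, M.vt (M.α d)) ∈ Z then (1 : ZMod 2) else 0) = 1 ↔ _
      split_ifs with h <;> simp [h]
    refine ⟨S, ?_⟩
    ext e
    constructor
    · intro he
      have he' : e ∈ (mkTri hS hT).G.edgeSet := by
        unfold Pool.Agent.Helper34.FF.Tri.bdry at he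
        exact (mem_filter.1 he).2.1
      obtain ⟨d, rfl⟩ := (mem_edgeSet hS hT e).1 he'
      exact (hmain d).1 he
    · intro he
      obtain ⟨d, rfl⟩ := (mem_edgeSet hS hT e).1 (hZ e he)
      exact (hmain d).2 he
  dual := by
    intro S hb
    have hα : ∀ d, M.fc d ∈ S → M.fc (M.α d) ∈ S := by
      intro d hd
      by_contra hcon
      have : s(M.vt d, M.vt (M.α d)) ∈ (mkTri hS hT).bdry S := by
        rw [mem_bdry]
        intro h
        exact hcon (h.1 hd)
      rw [hb] at this
      exact notMem_empty _ this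
    rcases S.eq_empty_or_nonempty with h | ⟨f0, hf0⟩
    · exact Or.inl h
    · right
      obtain ⟨d0, rfl⟩ := M.fc_surj f0
      refine eq_univ_of_forall fun f => ?_
      obtain ⟨d, rfl⟩ := M.fc_surj f
      refine M.conn (fun d => M.fc d ∈ S) ⟨d0, hf0⟩ ?_ hα d
      intro d hd
      show M.fc (M.σ d) ∈ S
      rw [fc_σ]
      exact hα d hd
  link := by
    intro v S hb
    have hstep : ∀ d, M.vt d = v → (M.fc (M.σ d) ∈ S ↔ M.fc d ∈ S) := by
      intro d hd
      rw [fc_σ]
      by_contra hcon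
      have : s(M.vt d, M.vt (M.α d)) ∈ (mkTri hS hT).bdry S := by
        rw [mem_bdry]
        intro h
        exact hcon h.symm
      exact hb _ this (by rw [hd]; exact Sym2.mem_mk_left _ _)
    obtain ⟨d0, hd0⟩ := M.vt_surj v
    have hvt : ∀ i : ℤ, M.vt ((M.σ ^ i) d0) = v := by
      intro i
      rw [← hd0, eq_comm, M.vt_iff]
      exact ⟨i, rfl⟩
    have hall : ∀ i : ℤ, M.fc ((M.σ ^ i) d0) ∈ S ↔ M.fc d0 ∈ S := by
      intro i
      induction i using Int.induction_on with
      | zero => simp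
      | succ i ih =>
        rw [← ih]
        have := hstep ((M.σ ^ (i : ℤ)) d0) (hvt i)
        rw [← this, add_comm, zpow_add, zpow_one]
        rfl
      | pred i ih =>
        rw [← ih]
        have := hstep ((M.σ ^ (-(i : ℤ) - 1)) d0) (hvt _)
        rw [← this]
        have h2 : M.σ ((M.σ ^ (-(i : ℤ) - 1)) d0) = (M.σ ^ (-(i : ℤ))) d0 := by
          have : (M.σ ^ (-(i : ℤ))) = M.σ ^ (1 : ℤ) * M.σ ^ (-(i : ℤ) - 1) := by
            rw [← zpow_add]
            congr 1
            ring
          rw [this, zpow_one]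
          rfl
        rw [h2]
    have hf : ∀ f, v ∈ tri M f → (f ∈ S ↔ M.fc d0 ∈ S) := by
      intro f hvf
      obtain ⟨d, rfl, hd⟩ := mem_tri.1 hvf
      have : M.vt d0 = M.vt d := hd0.trans hd.symm
      obtain ⟨i, hi⟩ := (M.vt_iff _ _).1 this
      rw [← hi]
      exact hall i
    by_cases h : M.fc d0 ∈ S
    · left
      intro f hvf
      exact (hf f hvf).2 h
    · right
      intro f hvf hfS
      exact h ((hf f hvf).1 hfS)
  edges := by
    have h1 := edges_le hS hT
    have h2 := card_D3 hS hT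
    have h3 := card_D2 M
    have h4 := M.euler
    omega

end

theorem stmtTri : StmtTri := by
  intro D V E F _ _ _ _ M hS hT
  exact ⟨mkTri hS hT, sphere hS hT, fun u v h => h⟩

end Helper69.PL
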